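import Pool.Agent.Helper15_Fspda.Inclusion
import Pool.Agent.Helper15_Fspda.NonMember
import Pool.Agent.Helper15_Fspda.WitnessB

set_option autoImplicit false

namespace Pool.Agent.Results.MP_e3bf5d_lc.InfiniteHierarchy

open Pool.Agent.Helper15_Fspda

/-- The families `FSPDAₙ` of languages of `n`-turn first-move self-regulating pushdown automata form
an infinite hierarchy: `FSPDAₙ ⊊ FSPDAₙ₊₁` for every `n ≥ 0`. -/
theorem result : ∀ n : ℕ, FSPDA n ⊂ FSPDA (n + 1) := by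
  intro n
  refine ⟨?_, ?_⟩
  · rintro L ⟨M, hM⟩
    exact ⟨M.inc n, by rw [hM, M.inc_language n]⟩
  · intro hsub
    have hmem : (⟨2 * n + 4, {w | ∃ m, 1 ≤ m ∧ w = word (2 * n + 4) m}⟩ :
        Σ m : ℕ, Set (List (Fin m))) ∈ FSPDA (n + 1) := ⟨wit n, (wit_language n).symm⟩
    obtain ⟨M, hM⟩ := hsub hmem
    have h : 2 * n + 4 ≤ 2 * (n + 1) := SPDA.letters_le M n hM.symm
    omega

end Pool.Agent.Results.MP_e3bf5d_lc.InfiniteHierarchy
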